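import Pool.Agent.H18.TD.Targets

/-!
Rank factorization of a matrix with entries algebraic over a field generated by one number.
-/

set_option autoImplicit false

open Polynomial Module Filter Topology Pool.Agent.H18.TD

namespace Pool.Agent.H30.TD

theorem fac_gen {K L : Type} [Field K] [Field L] (φ : K →+* L) (l c : ℕ)
    (M0 : Matrix (Fin l) (Fin c) K) : ∃ (ρ : ℕ) (X : Matrix (Fin l) (Fin ρ) K)
      (Y : Matrix (Fin ρ) (Fin c) K), X * Y = M0 ∧ (M0.map φ).rank = ρ ∧ (Y.map φ).rank = ρ := by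
  set f : (Fin c → K) →ₗ[K] (Fin l → K) := M0.mulVecLin with hf
  set b := Module.finBasis K (LinearMap.range f) with hb
  set ι : (Fin (finrank K (LinearMap.range f)) → K) →ₗ[K] (Fin l → K) :=
    (LinearMap.range f).subtype ∘ₗ b.equivFun.symm.toLinearMap with hι
  set π : (Fin c → K) →ₗ[K] (Fin (finrank K (LinearMap.range f)) → K) :=
    b.equivFun.toLinearMap ∘ₗ f.rangeRestrict with hπ
  have hcomp : ι ∘ₗ π = f := by
    refine LinearMap.ext fun x => ?_
    simp [hι, hπ]
  have hιi : Function.Injective ι :=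
    (Submodule.injective_subtype _).comp b.equivFun.symm.injective
  have hπs : Function.Surjective π :=
    b.equivFun.surjective.comp f.surjective_rangeRestrict
  obtain ⟨g, hg⟩ := LinearMap.exists_leftInverse_of_injective ι (LinearMap.ker_eq_bot.2 hιi)
  obtain ⟨h, hh⟩ := LinearMap.exists_rightInverse_of_surjective π (LinearMap.range_eq_top.2 hπs)
  have hXY : LinearMap.toMatrix' ι * LinearMap.toMatrix' π = M0 := by
    rw [← LinearMap.toMatrix'_comp, hcomp, hf]
    exact LinearMap.toMatrix'_toLin' M0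
  have hAX : LinearMap.toMatrix' g * LinearMap.toMatrix' ι = 1 := by
    rw [← LinearMap.toMatrix'_comp, hg, LinearMap.toMatrix'_id]
  have hYZ : LinearMap.toMatrix' π * LinearMap.toMatrix' h = 1 := by
    rw [← LinearMap.toMatrix'_comp, hh, LinearMap.toMatrix'_id]
  have hXY' : (LinearMap.toMatrix' ι).map φ * (LinearMap.toMatrix' π).map φ = M0.map φ := by
    rw [← Matrix.map_mul, hXY]
  have hAX' : (LinearMap.toMatrix' g).map φ * (LinearMap.toMatrix' ι).map φ = 1 := by
    rw [← Matrix.map_mul, hAX, Matrix.map_one _ (map_zero φ) (map_one φ)]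
  have hYZ' : (LinearMap.toMatrix' π).map φ * (LinearMap.toMatrix' h).map φ = 1 := by
    rw [← Matrix.map_mul, hYZ, Matrix.map_one _ (map_zero φ) (map_one φ)]
  refine ⟨finrank K (LinearMap.range f), LinearMap.toMatrix' ι, LinearMap.toMatrix' π, hXY,
    le_antisymm ?_ ?_, le_antisymm ?_ ?_⟩
  · rw [← hXY']
    exact (Matrix.rank_mul_le_left _ _).trans (Matrix.rank_le_width _)
  · have h1 : ((LinearMap.toMatrix' g).map φ * (M0.map φ * (LinearMap.toMatrix' h).map φ)) = 1 := by
      rw [← hXY', Matrix.mul_assoc, hYZ', Matrix.mul_one, hAX']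
    have h2 := (Matrix.rank_mul_le_right ((LinearMap.toMatrix' g).map φ)
      (M0.map φ * (LinearMap.toMatrix' h).map φ)).trans (Matrix.rank_mul_le_left _ _)
    rw [h1, Matrix.rank_one, Fintype.card_fin] at h2
    exact h2
  · exact Matrix.rank_le_height _
  · have h2 := Matrix.rank_mul_le_left ((LinearMap.toMatrix' π).map φ)
      ((LinearMap.toMatrix' h).map φ)
    rw [hYZ', Matrix.rank_one, Fintype.card_fin] at h2
    exact h2

theorem pf_FAC : T_FAC := by
  intro t l c M hM
  obtain ⟨M0, hM0⟩ : ∃ M0 : Matrix (Fin l) (Fin c)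
      (algebraicClosure (IntermediateField.adjoin ℚ ({t} : Set ℂ)) ℂ),
      M0.map (algebraMap _ ℂ) = M :=
    ⟨fun p j => ⟨M p j, mem_algebraicClosure_iff.2 (hM p j)⟩, by ext p j; rfl⟩
  obtain ⟨ρ, X, Y, h1, h2, h3⟩ := fac_gen (algebraMap
    (algebraicClosure (IntermediateField.adjoin ℚ ({t} : Set ℂ)) ℂ) ℂ) l c M0
  subst hM0
  subst h2
  refine ⟨X.map (algebraMap _ ℂ), Y.map (algebraMap _ ℂ), ?_, ?_, ?_, h3⟩
  · rw [← Matrix.map_mul, h1]
  · intro p i
    exact mem_algebraicClosure_iff.1 (X p i).2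
  · intro i j
    exact mem_algebraicClosure_iff.1 (Y i j).2

end Pool.Agent.H30.TD
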