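import Pool.Agent.H18.TD.Targets

/-!
Regular representation of a finite extension of a field generated by one number.
-/

set_option autoImplicit false

open Polynomial Module Filter Topology Pool.Agent.H18.TD

namespace Pool.Agent.H30.TD

/-- clearing the denominators of a rational polynomial -/
theorem clr (r : ℚ[X]) : ∃ (n : ℤ) (r' : ℤ[X]), n ≠ 0 ∧
    ∀ t : ℂ, (n : ℂ) * aeval t r = aeval t r' := by
  obtain ⟨n, hn0, hn⟩ := IsLocalization.integerNormalization_spec (nonZeroDivisors ℤ) r
  refine ⟨n, IsLocalization.integerNormalization (nonZeroDivisors ℤ) r,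
    nonZeroDivisors.ne_zero hn0, fun t => ?_⟩
  have h := congrArg (aeval t) hn
  rw [aeval_map_algebraMap, map_zsmul, zsmul_eq_mul] at h
  exact h.symm

/-- clearing the denominators of an element of `ℚ(t)` -/
theorem den {t a : ℂ} (ha : a ∈ IntermediateField.adjoin ℚ ({t} : Set ℂ)) :
    ∃ g f : ℤ[X], aeval t g ≠ 0 ∧ aeval t g * a = aeval t f := by
  obtain ⟨r, s, hrs⟩ := (IntermediateField.mem_adjoin_simple_iff ℚ a).1 ha
  by_cases hs : aeval t s = 0
  · refine ⟨1, 0, by simp, ?_⟩
    rw [hrs, hs, div_zero, mul_zero, map_zero]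
  · obtain ⟨n, r', hn, hr⟩ := clr r
    obtain ⟨m, s', hm, hsm⟩ := clr s
    refine ⟨C n * s', C m * r', ?_, ?_⟩
    · rw [map_mul, aeval_C, ← hsm]
      simpa using ⟨hn, hm, hs⟩
    · rw [map_mul, map_mul, aeval_C, aeval_C, ← hsm, ← hr, hrs]
      simp only [algebraMap_int_eq, eq_intCast]
      field_simp

/-- common denominator -/
theorem dens {t : ℂ} {κ : Type} [Fintype κ] (a : κ → ℂ)
    (ha : ∀ q, a q ∈ IntermediateField.adjoin ℚ ({t} : Set ℂ)) :
    ∃ D : ℤ[X], aeval t D ≠ 0 ∧ ∀ q, ∃ f : ℤ[X], aeval t D * a q = aeval t f := by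
  classical
  choose g f hg hf using fun q => den (ha q)
  refine ⟨∏ q, g q, ?_, fun q => ?_⟩
  · rw [map_prod]
    exact Finset.prod_ne_zero_iff.2 fun q _ => hg q
  · refine ⟨(∏ q' ∈ Finset.univ.erase q, g q') * f q, ?_⟩
    rw [← Finset.prod_erase_mul Finset.univ g (Finset.mem_univ q), map_mul, map_mul, mul_assoc, hf]

theorem pf_NRA : T_NRA := by
  classical
  intro t ι _ x hx
  set K : IntermediateField ℚ ℂ := IntermediateField.adjoin ℚ ({t} : Set ℂ) with hK
  set E : IntermediateField K ℂ := IntermediateField.adjoin K (Set.range x) with hE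
  have hfd : FiniteDimensional K E := by
    refine IntermediateField.finiteDimensional_adjoin ?_
    rintro _ ⟨i, rfl⟩
    exact (hx i).isIntegral
  have hfree : Module.Free K E := Module.Free.of_divisionRing K E
  set b0 := Module.finBasis K E with hb0
  have hN : 0 < finrank K E := Module.finrank_pos
  have htK : t ∈ K := IntermediateField.mem_adjoin_simple_self ℚ t
  have hxE : ∀ i, x i ∈ E := fun i =>
    IntermediateField.subset_adjoin K (Set.range x) ⟨i, rfl⟩
  obtain ⟨D, hD, hDf⟩ := dens (t := t) (κ := ι × Fin (finrank K E) × Fin (finrank K E))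
    (fun q => ((b0.repr ((⟨x q.1, hxE q.1⟩ : E) * b0 q.2.1) q.2.2 : K) : ℂ))
    (fun q => (b0.repr ((⟨x q.1, hxE q.1⟩ : E) * b0 q.2.1) q.2.2).2)
  choose F hF using hDf
  refine ⟨finrank K E, fun j => (b0 j : ℂ), ⟨0, hN⟩, D, fun i j k => F (i, j, k), ?_, hD, ?_, ?_⟩
  · intro h
    exact b0.ne_zero ⟨0, hN⟩ (Subtype.ext h)
  · intro i j
    have h1 := b0.sum_repr ((⟨x i, hxE i⟩ : E) * b0 j)
    have h2 := congrArg (algebraMap E ℂ) h1
    rw [map_sum] at h2
    have h4 : x i * (b0 j : ℂ) = ∑ k, ((b0.repr ((⟨x i, hxE i⟩ : E) * b0 j) k : K) : ℂ) *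
        (b0 k : ℂ) := h2.symm
    rw [mul_assoc, h4, Finset.mul_sum]
    refine Finset.sum_congr rfl fun k _ => ?_
    rw [← mul_assoc, ← hF (i, j, k)]
  · intro z _ hz0 A hA hdet
    set A1 : Matrix (Fin (finrank K E)) (Fin (finrank K E)) K :=
      A.map (aeval (⟨t, htK⟩ : K)) with hA1
    have hA1e : ∀ j k, ((A1 j k : K) : ℂ) = aeval t (A j k) := by
      intro j k
      have h := aeval_algebraMap_apply ℂ (⟨t, htK⟩ : K) (A j k)
      exact h.symm
    have hdet1 : A1.det = 0 := by
      have h1 : A1.det = aeval (⟨t, htK⟩ : K) A.det := by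
        rw [AlgHom.map_det]
        rfl
      have h2 := aeval_algebraMap_apply ℂ (⟨t, htK⟩ : K) A.det
      rw [h1]
      apply (algebraMap K ℂ).injective
      rw [← h2, map_zero]
      exact hdet
    obtain ⟨v, hv0, hv⟩ := Matrix.exists_vecMul_eq_zero_iff.2 hdet1
    have hsum : z * ∑ j, ((v j : K) : ℂ) * (b0 j : ℂ) = 0 := by
      have h1 : z * ∑ j, ((v j : K) : ℂ) * (b0 j : ℂ) =
          ∑ k, (∑ j, ((v j : K) : ℂ) * ((A1 j k : K) : ℂ)) * (b0 k : ℂ) := by
        rw [Finset.mul_sum]
        simp only [Finset.sum_mul]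
        rw [Finset.sum_comm]
        refine Finset.sum_congr rfl fun j _ => ?_
        have h2 : z * (((v j : K) : ℂ) * (b0 j : ℂ)) = ((v j : K) : ℂ) * (z * (b0 j : ℂ)) := by
          ring
        rw [h2, hA j, Finset.mul_sum]
        refine Finset.sum_congr rfl fun k _ => ?_
        rw [hA1e, mul_assoc]
      rw [h1]
      refine Finset.sum_eq_zero fun k _ => ?_
      have h3 := congrFun hv k
      have h4 := congrArg (algebraMap K ℂ) h3
      rw [Matrix.vecMul, dotProduct, map_sum, Pi.zero_apply, map_zero] at h4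
      have h5 : ∑ j, ((v j : K) : ℂ) * ((A1 j k : K) : ℂ) = 0 := h4
      rw [h5, zero_mul]
    have hs0 : ∑ j, v j • b0 j = 0 := by
      rcases mul_eq_zero.1 hsum with h | h
      · exact absurd h hz0
      · apply (algebraMap E ℂ).injective
        rw [map_sum, map_zero]
        exact h
    apply hv0
    funext j
    exact Fintype.linearIndependent_iff.1 b0.linearIndependent v hs0 j

end Pool.Agent.H30.TD
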