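import Pool.Agent.H18.TD.Targets

/-!
The number `e` is transcendental (Hermite).
-/

set_option autoImplicit false

open Polynomial Module Filter Topology Pool.Agent.H18.TD

namespace Pool.Agent.H30.TD

theorem tre_red (hA : IsAlgebraic ℚ (Real.exp 1)) : ∃ Q : ℤ[X], Q.coeff 0 ≠ 0 ∧
    aeval (Real.exp 1) Q = 0 := by
  have h1 : IsAlgebraic ℤ (Real.exp 1) := (IsFractionRing.isAlgebraic_iff ℤ ℚ ℝ).2 hA
  obtain ⟨P, hP0, hP⟩ := h1
  obtain ⟨Q, hQ, hd⟩ := exists_eq_pow_rootMultiplicity_mul_and_not_dvd P hP0 (0 : ℤ)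
  refine ⟨Q, ?_, ?_⟩
  · intro h
    apply hd
    rw [C_0, sub_zero]
    exact X_dvd_iff.2 h
  · rw [hQ, map_mul, map_pow, map_sub, aeval_X, C_0, map_zero, sub_zero] at hP
    rcases mul_eq_zero.1 hP with h | h
    · exact absurd h (pow_ne_zero _ (Real.exp_pos 1).ne')
    · exact h

theorem pf_TRE : T_TRE := by
  intro hA
  obtain ⟨Q, hQ0, hQ⟩ := tre_red hA
  set n := Q.natDegree with hn
  set f : ℤ[X] := ∏ k ∈ Finset.range n, (X - C ((k : ℤ) + 1)) with hf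
  have hfm : f.Monic := monic_prod_of_monic _ _ (fun k _ => monic_X_sub_C _)
  have hf0 : f.eval 0 ≠ 0 := by
    rw [hf, eval_prod]
    refine Finset.prod_ne_zero_iff.2 fun k _ => ?_
    simp only [eval_sub, eval_X, eval_C]
    omega
  obtain ⟨c, hc⟩ := LindemannWeierstrass.exp_polynomial_approx f hf0
  set S : ℝ := ∑ k ∈ Finset.range n, |(Q.coeff (k + 1) : ℝ)| with hS
  have hlim : Tendsto (fun m : ℕ => S * (|c| * (|c| ^ m / (m.factorial : ℝ)))) atTop (𝓝 0) := by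
    have h1 := (FloorSemiring.tendsto_pow_div_factorial_atTop |c|).const_mul |c|
    have h2 := h1.const_mul S
    simpa using h2
  have hev : ∀ᶠ m : ℕ in atTop, S * (|c| * (|c| ^ m / (m.factorial : ℝ))) < 1 :=
    (tendsto_order.1 hlim).2 1 one_pos
  obtain ⟨m0, hm0⟩ := eventually_atTop.1 hev
  obtain ⟨p, hpm, hp⟩ := Nat.exists_infinite_primes
    (m0 + (f.eval 0).natAbs + (Q.coeff 0).natAbs + 2)
  obtain ⟨N, hN, gp, -, hg⟩ := hc p (by omega) hp
  have hroot : ∀ k ∈ Finset.range n, ((k : ℂ) + 1) ∈ f.aroots ℂ := by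
    intro k hk
    rw [mem_aroots]
    refine ⟨hfm.ne_zero, ?_⟩
    rw [hf, map_prod]
    refine Finset.prod_eq_zero hk ?_
    simp
  have hae : ∀ k : ℕ, aeval ((k : ℂ) + 1) gp = ((gp.eval ((k : ℤ) + 1) : ℤ) : ℂ) := by
    intro k
    have h := aeval_algebraMap_apply_eq_algebraMap_eval (A := ℂ) ((k : ℤ) + 1) gp
    simpa using h
  have hexp : ∀ k : ℕ, Complex.exp ((k : ℂ) + 1) = ((Real.exp 1 ^ (k + 1) : ℝ) : ℂ) := by
    intro k
    rw [Complex.ofReal_pow, Complex.ofReal_exp, ← Complex.exp_nat_mul]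
    congr 1
    push_cast
    ring
  have hb : ∀ k ∈ Finset.range n,
      |(N : ℝ) * Real.exp 1 ^ (k + 1) - (p : ℝ) * ((gp.eval ((k : ℤ) + 1) : ℤ) : ℝ)| ≤
        |c| * (|c| ^ (p - 1) / ((p - 1).factorial : ℝ)) := by
    intro k hk
    have h := hg (hroot k hk)
    rw [nsmul_eq_mul, zsmul_eq_mul, hexp, hae] at h
    have h2 : ((N : ℂ) * ((Real.exp 1 ^ (k + 1) : ℝ) : ℂ) -
        (p : ℂ) * ((gp.eval ((k : ℤ) + 1) : ℤ) : ℂ)) =
        (((N : ℝ) * Real.exp 1 ^ (k + 1) - (p : ℝ) * ((gp.eval ((k : ℤ) + 1) : ℤ) : ℝ) : ℝ) : ℂ) := by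
      push_cast
      ring
    rw [h2, Complex.norm_real, Real.norm_eq_abs] at h
    refine h.trans ?_
    rw [← mul_div_assoc, ← pow_succ', Nat.sub_add_cancel hp.one_le, ← abs_pow]
    exact div_le_div_of_nonneg_right (le_abs_self _) (Nat.cast_nonneg _)
  have hsum : (Q.coeff 0 : ℝ) + ∑ k ∈ Finset.range n,
      (Q.coeff (k + 1) : ℝ) * Real.exp 1 ^ (k + 1) = 0 := by
    rw [aeval_eq_sum_range, Finset.sum_range_succ'] at hQ
    simp only [zsmul_eq_mul, pow_zero, mul_one] at hQ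
    rw [add_comm]
    exact hQ
  set J : ℤ := Q.coeff 0 * N + p * ∑ k ∈ Finset.range n,
    Q.coeff (k + 1) * gp.eval ((k : ℤ) + 1) with hJ
  have hJR : (J : ℝ) = -∑ k ∈ Finset.range n, (Q.coeff (k + 1) : ℝ) *
      ((N : ℝ) * Real.exp 1 ^ (k + 1) - (p : ℝ) * ((gp.eval ((k : ℤ) + 1) : ℤ) : ℝ)) := by
    have h1 : (Q.coeff 0 : ℝ) = -∑ k ∈ Finset.range n,
      (Q.coeff (k + 1) : ℝ) * Real.exp 1 ^ (k + 1) := by linarith
    rw [hJ]
    push_cast
    rw [h1, neg_mul, Finset.sum_mul, Finset.mul_sum]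
    simp only [mul_sub, Finset.sum_sub_distrib]
    have h3 : ∑ k ∈ Finset.range n, (Q.coeff (k + 1) : ℝ) * Real.exp 1 ^ (k + 1) * (N : ℝ) =
        ∑ k ∈ Finset.range n, (Q.coeff (k + 1) : ℝ) * ((N : ℝ) * Real.exp 1 ^ (k + 1)) :=
      Finset.sum_congr rfl fun k _ => by ring
    have h4 : ∑ k ∈ Finset.range n, (p : ℝ) * ((Q.coeff (k + 1) : ℝ) *
        ((gp.eval ((k : ℤ) + 1) : ℤ) : ℝ)) =
        ∑ k ∈ Finset.range n, (Q.coeff (k + 1) : ℝ) * ((p : ℝ) * ((gp.eval ((k : ℤ) + 1) : ℤ) : ℝ)) :=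
      Finset.sum_congr rfl fun k _ => by ring
    rw [h3, h4]
    ring
  have hJlt : |(J : ℝ)| < 1 := by
    have h := hm0 (p - 1) (by omega)
    refine lt_of_le_of_lt ?_ h
    rw [hJR, abs_neg, hS, Finset.sum_mul]
    refine (Finset.abs_sum_le_sum_abs _ _).trans (Finset.sum_le_sum fun k hk => ?_)
    rw [abs_mul]
    exact mul_le_mul_of_nonneg_left (hb k hk) (abs_nonneg _)
  have hJ0 : J = 0 := by
    have h : |J| < 1 := by exact_mod_cast hJlt
    exact Int.abs_lt_one_iff.1 h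
  have hdvd : (p : ℤ) ∣ Q.coeff 0 * N := by
    have h : Q.coeff 0 * N = p * -∑ k ∈ Finset.range n,
      Q.coeff (k + 1) * gp.eval ((k : ℤ) + 1) := by
      linarith [hJ0, hJ]
    exact ⟨_, h⟩
  rcases (Nat.prime_iff_prime_int.1 hp).dvd_or_dvd hdvd with h | h
  · have h2 := Int.natAbs_dvd_natAbs.2 h
    have h3 := Nat.le_of_dvd (Int.natAbs_pos.2 hQ0) h2
    simp at h3
    omega
  · exact hN h

end Pool.Agent.H30.TD
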